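import Pool.Agent.Lib.MP_fb520c_co.Cap

set_option autoImplicit false

open Pool.Agent.Lib.MP_fb520c_co

namespace Pool.Agent.Results.MP_fb520c_co.CapConvex

/-- The part of the region of pairs (packing density, covering density) of centrally symmetric
planar convex bodies that lies above the chord from the point of the disc to `(1, 1)` is an
explicit set, and this set is convex. -/
theorem result :
    omegaStar ∩ aboveChord = {p ∈ aboveChord | ∀ ψ ∈ Set.Icc 0 (Real.pi / 6),
        1 ≤ 4 * (Real.pi / 6 - ψ) / √3 / p.2 + √3 * Real.tan ψ / p.1} ∧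
      Convex ℝ (omegaStar ∩ aboveChord) :=
  ⟨cap_eq, cap_convex⟩

end Pool.Agent.Results.MP_fb520c_co.CapConvex
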