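import Pool.Agent.Lib.MP_fb520c_co.Top.Pre
import Pool.Agent.Lib.MP_fb520c_co.Cert.Main

set_option autoImplicit false

open Pool.Agent.Lib.MP_fb520c_co

namespace Pool.Agent.Results.MP_fb520c_co.Disproof

/-- The set of pairs (packing density, covering density) of centrally symmetric planar convex
bodies is not convex. -/
theorem not_convex_omegaStar_two : ¬Convex ℝ (Dim.omegaStar 2) :=
  not_convex_two (by norm_num) (by norm_num) Cert.empty

/-- The sets `Ω_d` and `Ω_d*` are not all convex. -/
theorem result : ¬∀ d : ℕ, 2 ≤ d → Convex ℝ (Dim.omega d) ∧ Convex ℝ (Dim.omegaStar d) :=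
  fun h => not_convex_omegaStar_two (h 2 le_rfl).2

end Pool.Agent.Results.MP_fb520c_co.Disproof
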