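import Pool.Agent.Lib.MP_fb520c_co.HarmB

set_option autoImplicit false

open Pool.Agent.Lib.MP_fb520c_co

namespace Pool.Agent.Results.MP_fb520c_co.HarmonicBound

/-- The harmonic mean of the packing density and the lattice covering density of a centrally
symmetric planar convex body is at least one. -/
theorem result :
    IsGreatest {t : ℝ | ∃ C : Set Plane, IsConvexBody C ∧ IsCentrallySymmetric C ∧
      t = 1 / packingDensity C + 1 / latticeCoveringDensity C} 2 := by
  constructor
  · have hpi := Real.pi_pos
    obtain ⟨h1, h2, h3, -, h4⟩ := body_dens (ψ := Real.pi / 6) (s := 0) (by positivity) le_rfl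
      (by linarith)
    refine ⟨_, h1, h2, ?_⟩
    have h5 : √3 ^ 2 = 3 := Real.sq_sqrt (by norm_num)
    rw [h3, h4, Real.sin_pi_div_six, Real.cos_pi_div_six, mul_zero, zero_add, sub_self, sub_zero,
      add_zero]
    field_simp
    rw [h5]
    norm_num
  · rintro _ ⟨C, h1, h2, rfl⟩
    exact harm_bound h1 h2

end Pool.Agent.Results.MP_fb520c_co.HarmonicBound
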