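import Pool.Agent.Lib.MP_fb520c_co.Cap

set_option autoImplicit false

open Pool.Agent.Lib.MP_fb520c_co

namespace Pool.Agent.Results.MP_fb520c_co.SharpBound

/-- A sharp one-parameter family of inequalities between the lattice covering density and the
packing density of centrally symmetric planar convex bodies. -/
theorem result (ψ : ℝ) (hψ : ψ ∈ Set.Icc 0 (Real.pi / 6)) :
    IsLeast {t : ℝ | ∃ C : Set Plane, IsConvexBody C ∧ IsCentrallySymmetric C ∧
      t = 4 * (Real.pi / 6 - ψ) / √3 / latticeCoveringDensity C +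
        √3 * Real.tan ψ / packingDensity C} 1 := by
  constructor
  · obtain ⟨h1, h2, h3, -, h4⟩ := body_dens (s := 0) hψ.1 le_rfl (by linarith [hψ.2])
    refine ⟨_, h1, h2, ?_⟩
    obtain ⟨c, s, -⟩ := trig_pos hψ
    have hp : 0 < Real.sin ψ * Real.cos ψ + (Real.pi / 6 - ψ) := by
      rcases hψ.2.eq_or_lt with q | q
      · rw [q, Real.sin_pi_div_six, Real.cos_pi_div_six, sub_self, add_zero]; positivity
      · exact add_pos_of_nonneg_of_pos (by positivity) (by linarith)
    have h5 : √3 ^ 2 = 3 := Real.sq_sqrt (by norm_num)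
    rw [h3, h4, mul_zero, zero_add, sub_zero, Real.tan_eq_sin_div_cos]
    generalize Real.pi / 6 - ψ = φ at hp ⊢
    field_simp
    rw [h5]
    ring
  · rintro _ ⟨C, h1, h2, rfl⟩
    exact (main_bound h1 h2 hψ.1 hψ.2).2.2.2

end Pool.Agent.Results.MP_fb520c_co.SharpBound
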